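import Pool.Agent.H33.HC.TC
import Pool.Agent.H37.CV.Targets

/-!
# ZEX: the continuation exists
-/

set_option autoImplicit false

open NumberField Complex

namespace Pool.Agent.H47.HC

open Pool.Agent.H33.HC Pool.Agent.H33.HH Pool.Agent.H28.RC Pool.Agent.H37.CV
  Pool.Agent.H65.CRZ Pool.Agent.H65.CRG

theorem pf_ZEX (hN : T_NRM) (hE : T_EN) : T_ZEX := by
  intro K _ _ _ χ hχ
  haveI : IsTotallyComplex K := (hN K).1
  obtain ⟨Z, Λ, ε, hZ, -⟩ := hE K χ hχ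
  have h : ∃ Z, IsEnt χ Z := ⟨Z, hZ⟩
  unfold Zx
  rw [dif_pos h]
  exact h.choose_spec

end Pool.Agent.H47.HC
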